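import Mathlib

set_option autoImplicit false

open IsDedekindDomain NumberField CategoryTheory
open scoped MatrixGroups

namespace Pool.Agent.Results.MP_e82a76_al.NeverDetected

/-- The trivial representation of the group `G` on `ZMod l`. -/
noncomputable abbrev Coeff (l : ℕ) (G : Type) [Group G] : Rep (ZMod l) G :=
  Rep.trivial (ZMod l) G (ZMod l)

/-- The restriction map in group cohomology with trivial coefficients `ZMod l`, from a group `G`
to a subgroup `H`, in degree `m`. -/
noncomputable def restrict (l : ℕ) {G : Type} [Group G] (H : Subgroup G) (m : ℕ) :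
    groupCohomology (Coeff l G) m ⟶ groupCohomology (Coeff l H) m :=
  groupCohomology.map (A := Coeff l G) (B := Coeff l H) H.subtype (𝟙 (Coeff l H)) m

/-- A group with a nontrivial homomorphism to the integers has a nonzero class in degree one
which restricts to zero on every finite subgroup. -/
theorem exists_class (l : ℕ) [hl : Fact l.Prime] {G : Type} [Group G]
    (f : G →* Multiplicative ℤ) (g₀ : G) (hg₀ : f g₀ ≠ 1) :
    ∃ x : groupCohomology (Coeff l G) 1, x ≠ 0 ∧
      ∀ H : Subgroup G, Finite H → restrict l H 1 x = 0 := by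
  -- the image of `f` is an infinite cyclic group
  let F : Additive G →+ ℤ :=
    { toFun := fun g => (f g.toMul).toAdd
      map_zero' := by simp
      map_add' := fun a b => by simp }
  obtain ⟨m, hm⟩ := Int.subgroup_cyclic F.range
  have hm0 : m ≠ 0 := by
    rintro rfl
    apply hg₀
    have h1 : F (Additive.ofMul g₀) ∈ F.range := ⟨_, rfl⟩
    rw [hm, AddSubgroup.closure_singleton_zero, AddSubgroup.mem_bot] at h1
    exact h1
  have hdvd : ∀ g : Additive G, m ∣ F g := by
    intro g
    have h1 : F g ∈ F.range := ⟨_, rfl⟩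
    rw [hm, AddSubgroup.mem_closure_singleton] at h1
    obtain ⟨k, hk⟩ := h1
    exact ⟨k, by rw [← hk]; simp [mul_comm]⟩
  let D : Additive G →+ ℤ :=
    { toFun := fun g => F g / m
      map_zero' := by simp
      map_add' := fun a b => by
        rw [map_add, Int.add_ediv_of_dvd_left (hdvd a)] }
  obtain ⟨g₁, hg₁⟩ : ∃ g : Additive G, F g = m := by
    have h1 : m ∈ F.range := by rw [hm]; exact AddSubgroup.mem_closure_singleton_self m
    exact h1
  let c : Additive G →+ ZMod l := (Int.castAddHom (ZMod l)).comp D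
  have hc1 : c g₁ = 1 := by
    change ((F g₁ / m : ℤ) : ZMod l) = 1
    rw [hg₁, Int.ediv_self hm0, Int.cast_one]
  let z : groupCohomology.cocycles₁ (Coeff l G) :=
    ⟨c ∘ Additive.ofMul, groupCohomology.mem_cocycles₁_of_addMonoidHom (A := Coeff l G) c⟩
  refine ⟨groupCohomology.H1π (Coeff l G) z, ?_, ?_⟩
  · intro h
    rw [groupCohomology.H1π_eq_zero_iff,
      groupCohomology.coboundaries₁_eq_bot_of_isTrivial, Submodule.mem_bot] at h
    have h2 : c g₁ = 0 := congrFun h g₁.toMul
    rw [hc1] at h2
    exact one_ne_zero h2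
  · intro H hH
    have h1 : restrict l H 1 (groupCohomology.H1π (Coeff l G) z) =
        groupCohomology.H1π (Coeff l H)
          (groupCohomology.mapCocycles₁ H.subtype (𝟙 (Coeff l H)) z) :=
      groupCohomology.H1π_comp_map_apply (A := Coeff l G) (B := Coeff l H) H.subtype
        (𝟙 (Coeff l H)) z
    rw [h1, groupCohomology.H1π_eq_zero_iff,
      groupCohomology.coboundaries₁_eq_bot_of_isTrivial, Submodule.mem_bot]
    funext h
    change c (Additive.ofMul (h : G)) = 0
    have h3 : D (Additive.ofMul (h : G)) = 0 := by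
      have h4 : IsOfFinOrder (h : G) := by
        exact MonoidHom.isOfFinOrder H.subtype (isOfFinOrder_of_finite h)
      have h5 : (orderOf (h : G)) • D (Additive.ofMul (h : G)) = 0 := by
        rw [← map_nsmul, ← ofMul_pow, pow_orderOf_eq_one, ofMul_one, map_zero]
      have h6 : orderOf (h : G) ≠ 0 := h4.orderOf_pos.ne'
      rcases smul_eq_zero.1 h5 with h7 | h7
      · exact absurd h7 h6
      · exact h7
    change ((D (Additive.ofMul (h : G)) : ℤ) : ZMod l) = 0
    rw [h3, Int.cast_zero]

/-- Let `K` be a number field, `l` a prime number, `n ≥ 1` and `S` a set of places of `K` which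
contains all the places above `l` (only the finite places in `S` matter for the ring
`S.integer K` of `S`-integers). Then there is a nonzero class in
`H^1(GL_n(𝒪_{K,S}), 𝔽_l)` whose restriction to every finite subgroup is zero. -/
theorem result (K : Type) [Field K] [NumberField K] (l : ℕ) [hl : Fact l.Prime] (n : ℕ)
    (hn : 1 ≤ n) (S : Set (HeightOneSpectrum (𝓞 K)))
    (hS : ∀ v : HeightOneSpectrum (𝓞 K), (l : 𝓞 K) ∈ v.asIdeal → v ∈ S) :
    ∃ x : groupCohomology (Coeff l (GL (Fin n) (S.integer K))) 1, x ≠ 0 ∧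
      ∀ H : Subgroup (GL (Fin n) (S.integer K)), Finite H → restrict l H 1 x = 0 := by
  have hl0 : (l : 𝓞 K) ≠ 0 := by
    exact_mod_cast hl.out.ne_zero
  -- a place `v` above `l`
  have hprime : (Ideal.span {(l : ℤ)}).IsPrime :=
    (Ideal.span_singleton_prime (by exact_mod_cast hl.out.ne_zero)).2
      (Nat.prime_iff_prime_int.1 hl.out)
  obtain ⟨⟨P, hP, hPl⟩⟩ := (Ideal.span {(l : ℤ)}).nonempty_primesOver (S := 𝓞 K)
  have hlP : (l : 𝓞 K) ∈ P := by
    have h1 : (l : ℤ) ∈ Ideal.span {(l : ℤ)} := Ideal.mem_span_singleton_self _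
    rw [hPl.over, Ideal.mem_under] at h1
    simpa using h1
  let v : HeightOneSpectrum (𝓞 K) := ⟨P, hP, by
    rintro rfl
    exact hl0 (by simpa using hlP)⟩
  have hvl : v.valuation K (l : K) < 1 := by
    have h1 : v.valuation K (algebraMap (𝓞 K) K (l : 𝓞 K)) < 1 :=
      (HeightOneSpectrum.valuation_lt_one_iff_mem (K := K) v (l : 𝓞 K)).2 hlP
    rwa [map_natCast] at h1
  have : Nonempty (Fin n) := ⟨⟨0, hn⟩⟩
  have hlK : (l : K) ≠ 0 := by exact_mod_cast hl.out.ne_zero
  -- the unit `l` of the ring of `S`-integers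
  have hinv : ((l : K)⁻¹ : K) ∈ S.integer K := by
    intro w hw
    have h1 : (l : 𝓞 K) ∉ w.asIdeal := fun h => hw (hS w h)
    have h2 : w.valuation K (algebraMap (𝓞 K) K (l : 𝓞 K)) = 1 :=
      (HeightOneSpectrum.valuation_eq_one_iff_notMem (K := K) w).2 h1
    rw [map_natCast] at h2
    rw [map_inv₀, h2, inv_one]
  let u : (S.integer K)ˣ :=
    ⟨(l : S.integer K), ⟨(l : K)⁻¹, hinv⟩, Subtype.ext (by simp [hlK]),
      Subtype.ext (by simp [hlK])⟩
  obtain ⟨g₀, hg₀⟩ := Matrix.GeneralLinearGroup.det_surjective (n := Fin n) u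
  -- the valuation of the determinant
  let f : GL (Fin n) (S.integer K) →* Multiplicative ℤ :=
    (WithZero.unitsWithZeroEquiv (α := Multiplicative ℤ)).toMonoidHom.comp
      ((Units.map ((v.valuation K).toMonoidWithZeroHom : K →* WithZero (Multiplicative ℤ))).comp
        ((Units.map ((algebraMap (S.integer K) K : S.integer K →+* K) : S.integer K →* K)).comp
          Matrix.GeneralLinearGroup.det))
  refine exists_class l f g₀ ?_
  intro h
  have h1 : ((f g₀ : Multiplicative ℤ) : WithZero (Multiplicative ℤ)) = v.valuation K (l : K) := by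
    change ((WithZero.unitsWithZeroEquiv _ : Multiplicative ℤ) : WithZero (Multiplicative ℤ)) = _
    rw [WithZero.coe_unitsWithZeroEquiv_eq_units_val]
    change v.valuation K (algebraMap (S.integer K) K
      ((Matrix.GeneralLinearGroup.det g₀ : (S.integer K)ˣ) : S.integer K)) = _
    rw [hg₀]
    simp [u]
  rw [h, WithZero.coe_one] at h1
  exact hvl.ne h1.symm

end Pool.Agent.Results.MP_e82a76_al.NeverDetected
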